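import Pool.Agent.D0H74.YB.Check

/-!
# A finite simple solution of the Yang–Baxter equation with three blocks of size four

The solution has 12 elements; its permutation group (isomorphic to the symmetric group on four
letters) has a system of three blocks of imprimitivity with four elements each. So the size `4` of
the blocks does not divide the number `3` of blocks.
-/

set_option autoImplicit false

namespace Pool.Agent.Results.MP_9f168b_al.NonDividingBlocks

open Pool.Agent.D0H74.YB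

/-- The map `r × id` on `X³`. -/
def r12 {X : Type} (r : X × X → X × X) (p : X × X × X) : X × X × X :=
  ((r (p.1, p.2.1)).1, (r (p.1, p.2.1)).2, p.2.2)

/-- The map `id × r` on `X³`. -/
def r23 {X : Type} (r : X × X → X × X) (p : X × X × X) : X × X × X :=
  (p.1, (r (p.2.1, p.2.2)).1, (r (p.2.1, p.2.2)).2)

/-- `(X, r)` is an involutive non-degenerate solution of the Yang–Baxter equation. With
`r (x, y) = (σ_x (y), τ_y (x))`, non-degenerate means that all maps `σ_x` and `τ_y` are bijective. -/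
structure IsSolution {X : Type} (r : X × X → X × X) : Prop where
  nonempty : Nonempty X
  braid : ∀ p : X × X × X, r12 r (r23 r (r12 r p)) = r23 r (r12 r (r23 r p))
  invol : ∀ p : X × X, r (r p) = p
  left : ∀ x : X, Function.Bijective fun y => (r (x, y)).1
  right : ∀ y : X, Function.Bijective fun x => (r (x, y)).2

/-- `f` is a homomorphism of solutions: `(f × f) ∘ r = r' ∘ (f × f)`. -/
def IsHom {X X' : Type} (r : X × X → X × X) (r' : X' × X' → X' × X') (f : X → X') : Prop :=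
  ∀ p : X × X, (f (r p).1, f (r p).2) = r' (f p.1, f p.2)

/-- The solution `(X, r)` is simple: it has more than one element, and every epimorphism onto a
solution `(X', r')` is bijective or satisfies `|X'| = 1`. -/
def IsSimpleSolution {X : Type} (r : X × X → X × X) : Prop :=
  IsSolution r ∧ Nontrivial X ∧
    ∀ (X' : Type) (r' : X' × X' → X' × X') (f : X → X'), IsSolution r' → IsHom r r' f →
      Function.Surjective f → Function.Bijective f ∨ Nat.card X' = 1

/-- The permutation group `G(X, r)`, generated by the permutations `σ_x`. -/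
def permGroup {X : Type} (r : X × X → X × X) : Subgroup (Equiv.Perm X) :=
  Subgroup.closure {g | ∃ x : X, ∀ y : X, g y = (r (x, y)).1}

/-- The sets `X_y = {y} × Z` are blocks of imprimitivity: the group maps each of them onto one of
them. -/
def AreBlocks {Y Z : Type} (G : Subgroup (Equiv.Perm (Y × Z))) : Prop :=
  ∀ g ∈ G, ∀ y : Y, ∃ y' : Y, g '' {p | p.1 = y} = {p | p.1 = y'}

/-! ### The tables -/

/-- The table of `σ`: entry `(i, j)` is `σ_i (j)`, where `(y, z)` is written as `4 y + z`. -/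
def S : List (List ℕ) :=
  [[5, 7, 4, 6, 9, 11, 8, 10, 3, 2, 1, 0],
   [9, 8, 11, 10, 5, 4, 7, 6, 1, 0, 3, 2],
   [11, 10, 9, 8, 2, 0, 3, 1, 6, 4, 7, 5],
   [4, 6, 5, 7, 0, 2, 1, 3, 10, 11, 8, 9],
   [8, 10, 9, 11, 1, 3, 0, 2, 6, 7, 4, 5],
   [7, 5, 6, 4, 3, 2, 1, 0, 9, 11, 8, 10],
   [6, 4, 7, 5, 10, 11, 8, 9, 0, 2, 1, 3],
   [9, 11, 8, 10, 5, 7, 4, 6, 2, 3, 0, 1],
   [7, 6, 5, 4, 3, 1, 2, 0, 10, 8, 11, 9],
   [10, 11, 8, 9, 6, 4, 7, 5, 2, 0, 3, 1],
   [8, 9, 10, 11, 1, 0, 3, 2, 5, 4, 7, 6],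
   [5, 4, 7, 6, 9, 8, 11, 10, 0, 1, 2, 3]]

/-- The table of `τ`: entry `(i, j)` is `τ_j (i)`. -/
def U : List (List ℕ) :=
  [[7, 10, 6, 8, 9, 8, 7, 5, 4, 5, 9, 11],
   [11, 5, 9, 4, 6, 4, 11, 10, 8, 10, 6, 7],
   [10, 7, 8, 6, 4, 9, 5, 11, 9, 7, 8, 5],
   [5, 11, 4, 9, 8, 6, 10, 7, 6, 11, 4, 10],
   [3, 9, 5, 1, 5, 0, 2, 9, 1, 6, 10, 3],
   [4, 1, 3, 11, 2, 11, 4, 0, 7, 0, 2, 8],
   [0, 8, 7, 2, 11, 3, 1, 4, 3, 8, 7, 1],
   [6, 2, 0, 10, 0, 5, 9, 2, 10, 3, 1, 6],
   [2, 6, 10, 0, 10, 1, 3, 6, 0, 9, 5, 2],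
   [1, 4, 11, 3, 7, 2, 0, 8, 2, 4, 11, 0],
   [8, 0, 2, 7, 3, 7, 8, 1, 11, 1, 3, 4],
   [9, 3, 1, 5, 1, 10, 6, 3, 5, 2, 0, 9]]

theorem check_lt : all2 12 (fun i j => decide (ap S i j < 12) && decide (ap U i j < 12)) = true := by
  decide +kernel

theorem check_invol : all2 12 (fun i j => decide (ap S (ap S i j) (ap U i j) = i) &&
    decide (ap U (ap S i j) (ap U i j) = j)) = true := by
  decide +kernel

theorem check_braid : all3 12 (fun i j k =>
    let a := ap S i j
    let b := ap U i j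
    let c := ap S b k
    let d := ap U b k
    let a' := ap S j k
    let b' := ap U j k
    let c' := ap S i a'
    let d' := ap U i a'
    decide (ap S a c = c') && decide (ap U a c = ap S d' b') && decide (d = ap U d' b')) =
      true := by
  decide +kernel

theorem check_left : all3 12 (fun i j k => !decide (ap S i j = ap S i k) || decide (j = k)) =
    true := by
  decide +kernel

theorem check_right : all3 12 (fun i j k => !decide (ap U i k = ap U j k) || decide (i = j)) =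
    true := by
  decide +kernel

theorem check_block : all3 12 (fun i j k => !decide (j / 4 = k / 4) ||
    decide (ap S i j / 4 = ap S i k / 4)) = true := by
  decide +kernel


/-- Certificate for simplicity: kind of the next step. -/
def NT : List (List ℕ) :=
  [[0, 0, 0, 1, 1, 1, 0, 1, 1, 1, 0, 0],
   [0, 0, 1, 0, 1, 0, 1, 0, 1, 0, 1, 1],
   [0, 1, 0, 0, 0, 1, 0, 1, 1, 1, 0, 1],
   [1, 0, 0, 0, 1, 0, 1, 1, 0, 0, 1, 1],
   [1, 1, 0, 1, 0, 0, 0, 1, 0, 1, 0, 0],
   [1, 0, 1, 0, 0, 0, 1, 0, 0, 1, 0, 1],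
   [0, 1, 0, 1, 0, 1, 0, 0, 1, 0, 1, 0],
   [1, 0, 1, 1, 1, 0, 0, 0, 0, 0, 1, 0],
   [1, 1, 1, 0, 0, 0, 1, 0, 0, 0, 0, 1],
   [1, 0, 1, 0, 1, 1, 0, 0, 0, 0, 1, 0],
   [0, 1, 0, 1, 0, 0, 1, 1, 0, 1, 0, 0],
   [0, 1, 1, 1, 0, 1, 0, 0, 1, 0, 0, 0]]

/-- Certificate for simplicity: multiplier of the next step. -/
def NZ : List (List ℕ) :=
  [[0, 0, 0, 0, 1, 0, 2, 10, 0, 11, 6, 0],
   [0, 0, 0, 0, 0, 4, 8, 0, 1, 0, 0, 8],
   [0, 0, 0, 0, 0, 7, 4, 0, 5, 0, 0, 0],
   [0, 0, 0, 0, 4, 2, 0, 0, 0, 6, 4, 0],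
   [1, 0, 0, 4, 0, 10, 3, 0, 4, 0, 2, 0],
   [0, 4, 7, 2, 10, 0, 0, 2, 0, 0, 0, 0],
   [2, 8, 4, 0, 3, 0, 0, 5, 0, 0, 0, 0],
   [10, 0, 0, 0, 0, 2, 5, 0, 0, 2, 0, 4],
   [0, 1, 5, 0, 4, 0, 0, 0, 0, 1, 6, 0],
   [11, 0, 0, 6, 0, 0, 0, 2, 1, 0, 0, 9],
   [6, 0, 0, 4, 2, 0, 0, 0, 6, 0, 0, 0],
   [0, 8, 0, 0, 0, 0, 0, 4, 0, 9, 0, 0]]

/-- Certificate for simplicity: rank. -/
def RK : List (List ℕ) :=
  [[0, 0, 2, 2, 3, 2, 3, 1, 2, 1, 2, 3],
   [0, 0, 2, 2, 2, 2, 1, 3, 3, 3, 2, 1],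
   [2, 2, 0, 2, 3, 1, 2, 2, 1, 2, 3, 3],
   [2, 2, 2, 0, 1, 3, 2, 3, 3, 2, 1, 2],
   [3, 2, 3, 1, 0, 1, 1, 2, 2, 2, 3, 2],
   [2, 2, 1, 3, 1, 0, 2, 1, 3, 3, 2, 2],
   [3, 1, 2, 2, 1, 2, 0, 1, 2, 2, 3, 3],
   [1, 3, 2, 3, 2, 1, 1, 0, 2, 3, 2, 2],
   [2, 3, 1, 3, 2, 3, 2, 2, 0, 1, 1, 2],
   [1, 3, 2, 2, 2, 3, 2, 3, 1, 0, 2, 1],
   [2, 2, 3, 1, 3, 2, 3, 2, 1, 2, 0, 1],
   [3, 1, 3, 2, 2, 2, 3, 2, 2, 1, 1, 0]]

theorem check_rank : rankCheck S NT NZ RK 12 = true := by
  decide +kernel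

theorem all_of_root {R : ℕ → ℕ → Prop} (hR : Equivalence R)
    (hl : ∀ z < 12, ∀ i < 12, ∀ j < 12, R i j → R (ap S z i) (ap S z j))
    (hr : ∀ z < 12, ∀ i < 12, ∀ j < 12, R i j → R (ap S i z) (ap S j z)) (f0 : R 0 1) :
    ∀ i < 12, R 0 i := by
  have f1 : R 5 7 := hl 0 (by norm_num) 0 (by norm_num) 1 (by norm_num) f0
  have f2 : R 9 8 := hl 1 (by norm_num) 0 (by norm_num) 1 (by norm_num) f0
  have f3 : R 11 10 := hl 2 (by norm_num) 0 (by norm_num) 1 (by norm_num) f0
  have f4 : R 4 6 := hl 3 (by norm_num) 0 (by norm_num) 1 (by norm_num) f0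
  have f5 : R 8 10 := hl 4 (by norm_num) 0 (by norm_num) 1 (by norm_num) f0
  have f6 : R 7 6 := hl 8 (by norm_num) 0 (by norm_num) 1 (by norm_num) f0
  have f7 : R 5 9 := hr 0 (by norm_num) 0 (by norm_num) 1 (by norm_num) f0
  have f8 : R 3 1 := hr 8 (by norm_num) 0 (by norm_num) 1 (by norm_num) f0
  have f9 : R 2 0 := hr 9 (by norm_num) 0 (by norm_num) 1 (by norm_num) f0
  have f10 : R 3 5 := hr 4 (by norm_num) 5 (by norm_num) 7 (by norm_num) f1
  have g0 : R 0 0 := hR.refl 0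
  have g1 : R 0 1 := hR.trans g0 f0
  have g2 : R 0 2 := hR.trans g0 (hR.symm f9)
  have g3 : R 0 3 := hR.trans g1 (hR.symm f8)
  have g5 : R 0 5 := hR.trans g3 f10
  have g7 : R 0 7 := hR.trans g5 f1
  have g9 : R 0 9 := hR.trans g5 f7
  have g6 : R 0 6 := hR.trans g7 f6
  have g8 : R 0 8 := hR.trans g9 f2
  have g4 : R 0 4 := hR.trans g6 (hR.symm f4)
  have g10 : R 0 10 := hR.trans g8 f5
  have g11 : R 0 11 := hR.trans g10 (hR.symm f3)
  intro i hi
  interval_cases i <;> assumption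

/-! ### The solution -/

/-- The underlying set. -/
abbrev X : Type := Fin 3 × Fin 4

/-- The pair `(y, z)` is encoded by the number `4 y + z`. -/
def e (p : X) : ℕ := 4 * p.1.val + p.2.val

/-- Decoding. -/
def d (k : ℕ) : X := (⟨k / 4 % 3, Nat.mod_lt _ (by norm_num)⟩, ⟨k % 4, Nat.mod_lt _ (by norm_num)⟩)

theorem e_lt (p : X) : e p < 12 := by
  have h1 := p.1.isLt
  have h2 := p.2.isLt
  unfold e
  omega

theorem e_d {k : ℕ} (hk : k < 12) : e (d k) = k := by
  unfold e d
  dsimp only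
  omega

theorem d_e (p : X) : d (e p) = p := by
  obtain ⟨⟨a, ha⟩, ⟨b, hb⟩⟩ := p
  unfold e d
  ext
  · dsimp only
    omega
  · dsimp only
    omega

theorem e_inj {p q : X} (h : e p = e q) : p = q := by
  rw [← d_e p, ← d_e q, h]

/-- The solution. -/
def r (p : X × X) : X × X := (d (ap S (e p.1) (e p.2)), d (ap U (e p.1) (e p.2)))

theorem lt_S {i j : ℕ} (hi : i < 12) (hj : j < 12) : ap S i j < 12 := by
  have h := all2_iff.1 check_lt i hi j hj
  simp only [Bool.and_eq_true, decide_eq_true_eq] at h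
  exact h.1

theorem lt_U {i j : ℕ} (hi : i < 12) (hj : j < 12) : ap U i j < 12 := by
  have h := all2_iff.1 check_lt i hi j hj
  simp only [Bool.and_eq_true, decide_eq_true_eq] at h
  exact h.2

theorem e_r1 (x y : X) : e (r (x, y)).1 = ap S (e x) (e y) := e_d (lt_S (e_lt x) (e_lt y))

theorem e_r2 (x y : X) : e (r (x, y)).2 = ap U (e x) (e y) := e_d (lt_U (e_lt x) (e_lt y))

theorem isSolution : IsSolution r where
  nonempty := ⟨d 0⟩
  braid := by
    rintro ⟨x, y, z⟩
    have h := all3_iff.1 check_braid _ (e_lt x) _ (e_lt y) _ (e_lt z)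
    simp only [Bool.and_eq_true, decide_eq_true_eq] at h
    obtain ⟨⟨h1, h2⟩, h3⟩ := h
    have k1 : (r12 r (r23 r (r12 r (x, y, z)))) =
        ((r ((r (x, y)).1, (r ((r (x, y)).2, z)).1)).1,
          (r ((r (x, y)).1, (r ((r (x, y)).2, z)).1)).2, (r ((r (x, y)).2, z)).2) := rfl
    have k2 : (r23 r (r12 r (r23 r (x, y, z)))) =
        ((r (x, (r (y, z)).1)).1,
          (r ((r (x, (r (y, z)).1)).2, (r (y, z)).2)).1,
          (r ((r (x, (r (y, z)).1)).2, (r (y, z)).2)).2) := rfl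
    rw [k1, k2]
    refine Prod.ext (e_inj ?_) (Prod.ext (e_inj ?_) (e_inj ?_))
    · simp only [e_r1, e_r2]
      exact h1
    · simp only [e_r1, e_r2]
      exact h2
    · simp only [e_r1, e_r2]
      exact h3
  invol := by
    rintro ⟨x, y⟩
    have h := all2_iff.1 check_invol _ (e_lt x) _ (e_lt y)
    simp only [Bool.and_eq_true, decide_eq_true_eq] at h
    have k1 : r (r (x, y)) = ((r ((r (x, y)).1, (r (x, y)).2)).1,
      (r ((r (x, y)).1, (r (x, y)).2)).2) := rfl
    rw [k1]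
    refine Prod.ext (e_inj ?_) (e_inj ?_)
    · simp only [e_r1, e_r2]
      exact h.1
    · simp only [e_r1, e_r2]
      exact h.2
  left := by
    intro x
    rw [← Finite.injective_iff_bijective]
    intro y z hyz
    have h := all3_iff.1 check_left _ (e_lt x) _ (e_lt y) _ (e_lt z)
    simp only [Bool.or_eq_true, decide_eq_true_eq, Bool.not_eq_true', decide_eq_false_iff_not] at h
    rcases h with h | h
    · exfalso
      apply h
      rw [← e_r1, ← e_r1]
      exact congrArg e hyz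
    · exact e_inj h
  right := by
    intro z
    rw [← Finite.injective_iff_bijective]
    intro x y hxy
    have h := all3_iff.1 check_right _ (e_lt x) _ (e_lt y) _ (e_lt z)
    simp only [Bool.or_eq_true, decide_eq_true_eq, Bool.not_eq_true', decide_eq_false_iff_not] at h
    rcases h with h | h
    · exfalso
      apply h
      rw [← e_r2, ← e_r2]
      exact congrArg e hxy
    · exact e_inj h

theorem isSimple : IsSimpleSolution r := by
  refine ⟨isSolution, inferInstance, ?_⟩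
  intro X' r' f h' hf hsurj
  by_cases hinj : Function.Injective f
  · exact Or.inl ⟨hinj, hsurj⟩
  · right
    -- the kernel of `f`
    let R : ℕ → ℕ → Prop := fun i j => f (d i) = f (d j)
    have hR : Equivalence R := ⟨fun _ => rfl, fun h => h.symm, fun h1 h2 => h1.trans h2⟩
    have hmul : ∀ x y : X, f (r (x, y)).1 = (r' (f x, f y)).1 := fun x y =>
      congrArg Prod.fst (hf (x, y))
    have hS : ∀ i < 12, ∀ j < 12, d (ap S i j) = (r (d i, d j)).1 := by
      intro i hi j hj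
      apply e_inj
      rw [e_d (lt_S hi hj), e_r1, e_d hi, e_d hj]
    have hl : ∀ z < 12, ∀ i < 12, ∀ j < 12, R i j → R (ap S z i) (ap S z j) := by
      intro z hz i hi j hj h
      change f (d (ap S z i)) = f (d (ap S z j))
      rw [hS z hz i hi, hS z hz j hj, hmul, hmul, show f (d i) = f (d j) from h]
    have hr : ∀ z < 12, ∀ i < 12, ∀ j < 12, R i j → R (ap S i z) (ap S j z) := by
      intro z hz i hi j hj h
      change f (d (ap S i z)) = f (d (ap S j z))
      rw [hS i hi z hz, hS j hj z hz, hmul, hmul, show f (d i) = f (d j) from h]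
    obtain ⟨x, y, hxy, hne⟩ : ∃ x y, f x = f y ∧ x ≠ y := by
      by_contra hcon
      push Not at hcon
      exact hinj fun x y h => hcon x y h
    have h0 : R 0 1 := by
      apply root_of_check hR (fun i hi j hj => lt_S hi hj) hl hr check_rank
        (ap RK (e x) (e y)) (e x) (e_lt x) (e y) (e_lt y) (fun h => hne (e_inj h)) le_rfl
      change f (d (e x)) = f (d (e y))
      rw [d_e, d_e, hxy]
    have hall : ∀ p : X, f p = f (d 0) := by
      intro p
      have := all_of_root hR hl hr h0 (e p) (e_lt p)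
      have h2 : f (d 0) = f (d (e p)) := this
      rw [h2, d_e]
    rw [Nat.card_eq_one_iff_exists]
    refine ⟨f (d 0), fun q => ?_⟩
    obtain ⟨p, rfl⟩ := hsurj q
    exact hall p

theorem areBlocks : AreBlocks (permGroup r) := by
  -- each element of the group maps blocks into blocks
  have key : ∀ g ∈ permGroup r, ∀ p q : X, p.1 = q.1 → (g p).1 = (g q).1 := by
    intro g hg
    have hgen : ∀ x p q : X, p.1 = q.1 → (r (x, p)).1.1 = (r (x, q)).1.1 := by
      intro x p q hpq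
      have h := all3_iff.1 check_block _ (e_lt x) _ (e_lt p) _ (e_lt q)
      simp only [Bool.or_eq_true, decide_eq_true_eq, Bool.not_eq_true',
        decide_eq_false_iff_not] at h
      have he : ∀ p : X, e p / 4 = p.1.val := by
        intro p
        have := p.2.isLt
        unfold e
        omega
      rcases h with h | h
      · exact absurd (by rw [he, he, hpq]) h
      · rw [← e_r1, ← e_r1, he, he] at h
        exact Fin.ext h
    induction hg using Subgroup.closure_induction with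
    | mem g hg =>
      obtain ⟨x, hx⟩ := hg
      intro p q hpq
      rw [hx, hx]
      exact hgen x p q hpq
    | one => intro p q hpq; exact hpq
    | mul a b _ _ ha hb => intro p q hpq; exact ha _ _ (hb _ _ hpq)
    | inv a _ ha =>
      -- `a` permutes the three blocks, so does its inverse
      let φ : Fin 3 → Fin 3 := fun y => (a (y, 0)).1
      have hφ : ∀ p : X, (a p).1 = φ p.1 := fun p => ha p (p.1, 0) rfl
      have hsurj : Function.Surjective φ := by
        intro y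
        refine ⟨(a⁻¹ (y, 0)).1, ?_⟩
        rw [← hφ]
        exact congrArg Prod.fst (a.apply_symm_apply (y, 0))
      have hinj : Function.Injective φ := Finite.injective_iff_surjective.2 hsurj
      intro p q hpq
      apply hinj
      rw [← hφ, ← hφ]
      have e1 : a (a⁻¹ p) = p := a.apply_symm_apply p
      have e2 : a (a⁻¹ q) = q := a.apply_symm_apply q
      rw [e1, e2]
      exact hpq
  intro g hg y
  refine ⟨(g (y, 0)).1, ?_⟩
  ext p
  constructor
  · rintro ⟨q, hq, rfl⟩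
    exact key g hg q (y, 0) hq
  · intro hp
    refine ⟨g⁻¹ p, ?_, g.apply_symm_apply p⟩
    have h := key g⁻¹ (Subgroup.inv_mem _ hg) p (g (y, 0)) hp
    have e1 : g⁻¹ (g (y, 0)) = (y, 0) := g.symm_apply_apply (y, 0)
    rw [e1] at h
    exact h

/-- **Answer to Q1: yes.** There is a finite simple solution `(X, r)` of the Yang–Baxter equation with
`X = Y × Z`, `|Y| = 3` and `|Z| = 4`, such that the sets `X_y` are blocks of imprimitivity for the
action of `G(X, r)` on `X`; here `|Z|` does not divide `|Y|`, and `|Y|` and `|Z|` are even coprime. -/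
theorem result : ∃ (Y Z : Type) (_ : Finite Y) (_ : Finite Z) (r : (Y × Z) × (Y × Z) →
    (Y × Z) × (Y × Z)), Nat.card Y = 3 ∧ Nat.card Z = 4 ∧ IsSimpleSolution r ∧
      AreBlocks (permGroup r) ∧ ¬ Nat.card Z ∣ Nat.card Y := by
  refine ⟨Fin 3, Fin 4, inferInstance, inferInstance, r, by simp, by simp, isSimple, areBlocks, ?_⟩
  rw [Nat.card_eq_fintype_card, Nat.card_eq_fintype_card, Fintype.card_fin, Fintype.card_fin]
  norm_num

end Pool.Agent.Results.MP_9f168b_al.NonDividingBlocks
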